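import Pool.Agent.D0H43.BQ.Fin
import Pool.Agent.D0H41.MQ.LoclA
import Pool.Agent.D0H69.BS.MerF
import Pool.Agent.D0H76.BS.Rka
import Pool.Agent.D0H76.BS.Pica

/-!
# The formula of Bloch and Soulé for the surfaces `y² = x³ + D x` over all number rings containing `√-1`

The method is helper69's file `D0H69/BS/SrfF.lean` (the surfaces `y² + D y = x³`).
-/

set_option autoImplicit false
set_option linter.unusedVariables false
set_option linter.unusedSectionVars false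

open NumberField IsDedekindDomain CategoryTheory AlgebraicGeometry Filter
open scoped Classical

namespace Pool.Agent.D0H43.BQF

open Pool.Agent.W189.NF (aV eV LSeries_hasProd)
open Pool.Agent.H921R2.TatePole (nm two_le_nm)
open Pool.Agent.D0H69.BS (CRN XN Frob LcF zeta_merF order_of_ne)
open Pool.Agent.D0H43.BQ (WQ WQ_disc IsZ order_unique rank_fin exists_bq)
open Pool.Agent.D0H41.MQ (PP pp_diff pp_one pp_ne pp_good w4)
open Pool.Agent.D0H43.MQ (np qn tn fac)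

/-- the formula -/
def BSG {F : Type} [Field F] [NumberField F] (W : WeierstrassCurve (𝓞 F)) (N : 𝓞 F) (u p : ℕ) : Prop :=
  Module.rank ℤ (Additive (CRN W N)ˣ) = u ∧
    Module.rank ℤ (Additive (CommRing.Pic (CRN W N))) = p ∧
    ∀ Z : ℂ → ℂ, IsZ (XN W N) Z →
      meromorphicOrderAt Z 1 = (((u : ℤ) - (p : ℤ) : ℤ) : WithTop ℤ) ∧
      meromorphicOrderAt Z 2 = ((-1 : ℤ) : WithTop ℤ) ∧
      ∀ m : ℕ, 3 ≤ m → meromorphicOrderAt Z (m : ℂ) = 0

/-- the result for a surface -/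
def Hld {F : Type} [Field F] [NumberField F] (D N : 𝓞 F) : Prop :=
  ((WQ D).baseChange (Localization.Away N)).IsElliptic ∧ IsDomain (CRN (WQ D) N) ∧
    (∃ Z : ℂ → ℂ, IsZ (XN (WQ D) N) Z) ∧ Finite (CommRing.Pic (CRN (WQ D) N)) ∧
    BSG (WQ D) N (Units.rank F + {v : HeightOneSpectrum (𝓞 F) | N ∈ v.asIdeal}.ncard) 0

section
variable {F : Type} [Field F] [NumberField F]

/-- the units of the coordinate ring -/
theorem rank_unitsF (W : WeierstrassCurve (𝓞 F)) {N : 𝓞 F} (hN : N ≠ 0) :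
    Module.rank ℤ (Additive (CRN W N)ˣ) =
      ((Units.rank F + {v : HeightOneSpectrum (𝓞 F) | N ∈ v.asIdeal}.ncard : ℕ) : Cardinal) := by
  have hle : Submonoid.powers N ≤ nonZeroDivisors (𝓞 F) :=
    powers_le_nonZeroDivisors_of_noZeroDivisors hN
  have hdom : IsDomain (Localization.Away N) := IsLocalization.isDomain_localization hle
  rw [← Pool.Agent.D0H76.BS.rka F N hN]
  have h4 := Pool.Agent.D0H17.BS.un (Localization.Away N) (W.baseChange (Localization.Away N))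
  exact ((MulEquiv.ofBijective _ h4).toAdditive.toIntLinearEquiv.rank_eq).symm

/-- the surface is smooth -/
lemma disc_unitF {D N : 𝓞 F} (hDN : ∃ n : ℕ, 2 * D ∣ N ^ n) :
    ((WQ D).baseChange (Localization.Away N)).IsElliptic := by
  refine ⟨?_⟩
  obtain ⟨n, t, ht⟩ := hDN
  have h1 : IsUnit (algebraMap (𝓞 F) (Localization.Away N) (N ^ n)) := by
    rw [map_pow]
    exact (IsLocalization.Away.algebraMap_isUnit N).pow n
  rw [ht, map_mul, map_mul] at h1
  have h2 := isUnit_of_mul_isUnit_left h1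
  have h3 := isUnit_of_mul_isUnit_left h2
  have hD := isUnit_of_mul_isUnit_right h2
  show IsUnit ((WQ D).map (algebraMap (𝓞 F) (Localization.Away N))).Δ
  rw [WeierstrassCurve.map_Δ, WQ_disc, map_mul, map_neg, map_pow, map_ofNat]
  rw [map_ofNat] at h3
  have h4 : (64 : Localization.Away N) = 2 ^ 6 := by norm_num
  rw [h4]
  exact ((h3.pow 6).neg).mul (hD.pow 3)

/-- the residue fields contain a square root of `-1` -/
lemma four_dvd {i : 𝓞 F} (hi : i ^ 2 = -1) (v : HeightOneSpectrum (𝓞 F))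
    (h2 : (2 : 𝓞 F) ∉ v.asIdeal) : 4 ∣ nm v - 1 := by
  have hm : v.asIdeal.IsMaximal := v.isMaximal
  letI : Field (𝓞 F ⧸ v.asIdeal) := Ideal.Quotient.field v.asIdeal
  have hq : Nat.card (𝓞 F ⧸ v.asIdeal) = nm v := Pool.Agent.D0H69.BS.nm_eq v
  have hfin : Finite (𝓞 F ⧸ v.asIdeal) := by
    refine Nat.finite_of_card_ne_zero ?_
    rw [hq]
    have := two_le_nm v
    omega
  letI : Fintype (𝓞 F ⧸ v.asIdeal) := Fintype.ofFinite _
  have h20 : (2 : 𝓞 F ⧸ v.asIdeal) ≠ 0 := by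
    intro h
    apply h2
    rw [← Ideal.Quotient.eq_zero_iff_mem, map_ofNat]
    exact h
  set x : 𝓞 F ⧸ v.asIdeal := Ideal.Quotient.mk v.asIdeal i with hx
  have hx2 : x ^ 2 = -1 := by
    rw [hx, ← map_pow, hi, map_neg, map_one]
  have hx0 : x ≠ 0 := by
    intro h
    rw [h] at hx2
    have : (1 : 𝓞 F ⧸ v.asIdeal) = 0 := by
      rw [zero_pow two_ne_zero] at hx2
      linear_combination hx2
    exact one_ne_zero this
  have ho : orderOf (Units.mk0 x hx0) = 2 ^ (1 + 1) := by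
    refine orderOf_eq_prime_pow ?_ ?_
    · intro h
      have h1 := congrArg Units.val h
      rw [Units.val_pow_eq_pow_val, Units.val_mk0, pow_one, hx2, Units.val_one] at h1
      apply h20
      linear_combination -h1
    · apply Units.ext
      rw [Units.val_pow_eq_pow_val, Units.val_mk0, Units.val_one]
      have : x ^ 2 ^ (1 + 1) = (x ^ 2) ^ 2 := by ring
      rw [this, hx2]
      norm_num
  have h3 := orderOf_dvd_card (x := Units.mk0 x hx0)
  rw [ho, Fintype.card_units, ← Nat.card_eq_fintype_card, hq] at h3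
  exact h3

/-- **the local data at the good places** -/
theorem exists_frob {i : 𝓞 F} (hi : i ^ 2 = -1) (D : 𝓞 F) (v : HeightOneSpectrum (𝓞 F))
    (h : 2 * D ∉ v.asIdeal) :
    ∃ β : ℂ, Frob (WQ D) v β ∧ ∀ s : ℂ, PP (w4 (D : F)) s v =
      (1 - β * (nm v : ℂ) ^ (-s)) * (1 - (starRingEnd ℂ) β * (nm v : ℂ) ^ (-s)) := by
  have h2 : (2 : 𝓞 F) ∉ v.asIdeal := fun h' => h (Ideal.mul_mem_right _ _ h')
  have hD : D ∉ v.asIdeal := fun h' => h (Ideal.mul_mem_left _ _ h')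
  obtain ⟨β, hβ⟩ := exists_bq v (four_dvd hi v h2)
  obtain ⟨b1, b2⟩ := hβ D hD
  refine ⟨β D, b1, fun s => ?_⟩
  have h3 := pp_good h s
  unfold fac at h3
  rw [inv_inj] at h3
  have hq : qn v = nm v := Pool.Agent.D0H69.BS.nm_eq v
  have ht : ((tn D v : ℤ) : ℂ) = β D + (starRingEnd ℂ) (β D) := by
    unfold tn np
    push_cast
    rw [b2, hq]
    ring
  rw [h3, ht, hq]
  linear_combination (-((nm v : ℂ) ^ (-s)) ^ 2) * b1.1

/-- the function of the eigenvalues -/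
noncomputable def bt {i : 𝓞 F} (hi : i ^ 2 = -1) (D : 𝓞 F) (v : HeightOneSpectrum (𝓞 F)) : ℂ :=
  if h : 2 * D ∉ v.asIdeal then (exists_frob hi D v h).choose else 0

lemma bt_spec {i : 𝓞 F} (hi : i ^ 2 = -1) (D : 𝓞 F) (v : HeightOneSpectrum (𝓞 F))
    (h : 2 * D ∉ v.asIdeal) :
    Frob (WQ D) v (bt hi D v) ∧ ∀ s : ℂ, PP (w4 (D : F)) s v =
      (1 - bt hi D v * (nm v : ℂ) ^ (-s)) * (1 - (starRingEnd ℂ) (bt hi D v) * (nm v : ℂ) ^ (-s)) := by
  unfold bt
  rw [dif_pos h]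
  exact (exists_frob hi D v h).choose_spec

lemma WQ_w4 (D : 𝓞 F) : ((WQ D).baseChange F : WeierstrassCurve F) = w4 (D : F) := by
  unfold WQ w4 WeierstrassCurve.baseChange WeierstrassCurve.map
  simp

/-- **the surfaces** -/
theorem srf {i : 𝓞 F} (hi : i ^ 2 = -1) {D N : 𝓞 F} (hD : D ≠ 0) (hN : N ≠ 0)
    (hDN : ∃ n : ℕ, 2 * D ∣ N ^ n)
    (hfin : Finite (w4 (D : F)).toAffine.Point) {Λ : ℂ → ℂ} (hΛ : MeromorphicOn Λ Set.univ)
    (hΛa : AnalyticAt ℂ Λ 1) (hΛ1 : Λ 1 ≠ 0)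
    (hΛs : ∀ s : ℂ, 2 < s.re → Λ s = (w4 (D : F)).LSeries s) : Hld D N := by
  have hmem : ∀ v : HeightOneSpectrum (𝓞 F), N ∉ v.asIdeal → 2 * D ∉ v.asIdeal := by
    intro v hv h
    obtain ⟨n, hn⟩ := hDN
    exact hv (v.isPrime.mem_of_pow_mem n (Ideal.mem_of_dvd _ hn h))
  have hL : LcF N (bt hi D) (fun s v => PP (w4 (D : F)) s v) :=
    { nrm := fun v hv => (bt_spec hi D v (hmem v hv)).1.1
      good := fun v hv s => (bt_spec hi D v (hmem v hv)).2 s
      diff := fun v _ => pp_diff _ v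
      one := fun v _ => pp_one _ v
      ne := fun v _ s hs => pp_ne _ hs v }
  obtain ⟨Z, f1, f2, f3, f4, f5⟩ := zeta_merF hN
    (fun v hv => (bt_spec hi D v (hmem v hv)).1) hL hΛ (order_of_ne hΛa hΛ1) (fun s hs => by
      rw [hΛs s hs]
      exact (LSeries_hasProd _ hs).2)
  have hΔ : (WQ D).Δ ≠ 0 := by
    rw [WQ_disc]
    exact mul_ne_zero (by norm_num) (pow_ne_zero 3 hD)
  obtain ⟨hd, hp⟩ := Pool.Agent.D0H76.BS.PC.pica F (WQ D) N hN hΔ (by rw [WQ_w4]; exact hfin)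
  refine ⟨disc_unitF hDN, hd, ⟨Z, f1, fun s hs => f2 s hs⟩, hp, rank_unitsF _ hN, ?_,
    fun Z' hZ' => ?_⟩
  · rw [rank_fin, Nat.cast_zero]
  · have hu : ∀ s : ℂ, meromorphicOrderAt Z' s = meromorphicOrderAt Z s :=
      order_unique hZ'.1 f1 (σ := 2) fun s hs => by
        rw [(hZ'.2 s hs).2, (f2 s hs).2]
        rfl
    rw [hu, hu, f3, f4, Nat.cast_zero, sub_zero]
    exact ⟨rfl, rfl, fun m hm => by rw [hu, f5 m hm]⟩

end

end Pool.Agent.D0H43.BQF
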